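import Pool.Agent.P.MP_0dc862_nt.Pf.Main

namespace Pool.Agent.Results.MP_0dc862_nt.ParryBase

/-- The greedy expansion of `x` in the shifted alternate base `(b i, ..., b (i + p - 1))`
(indices mod `p`) is finite: the remainders vanish from some point on. -/
def FiniteExp (p : ℕ) (b : ℕ → ℝ) (i : ℕ) (x : ℝ) : Prop :=
  ∀ t : ℕ → ℝ, t 0 = x → (∀ n : ℕ, t (n + 1) = Int.fract (b ((i + n) % p) * t n)) →
    ∃ N : ℕ, ∀ n ≥ N, t n = 0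

/-- `(b 0, ..., b (p - 1))` arises from `(a 0, ..., a (q - 1))` by writing each `a i` as a product
of consecutive terms. -/
def Refines (p : ℕ) (b : ℕ → ℝ) (q : ℕ) (a : ℕ → ℝ) : Prop :=
  ∃ n : ℕ → ℕ, n 0 = 0 ∧ n q = p ∧ ∀ i < q, n i < n (i + 1) ∧
    a i = ∏ j ∈ Finset.Ico (n i) (n (i + 1)), b j

theorem result (q : ℕ) (a : ℕ → ℝ) (β : ℝ) (hq : 0 < q) (ha : ∀ i < q, 1 < a i)
    (hβ : β = ∏ i ∈ Finset.range q, a i) (hint : IsIntegral ℤ β)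
    (hP : ∀ z ∈ (minpoly ℤ β).aroots ℂ, z ≠ (β : ℂ) → ‖z‖ < β)
    (haK : ∀ i < q, a i ∈ IntermediateField.adjoin ℚ ({β} : Set ℝ)) (F : Finset ℝ)
    (hF : ∀ x ∈ F, x ∈ IntermediateField.adjoin ℚ ({β} : Set ℝ) ∧ 0 ≤ x ∧ x < 1) :
    ∃ (p : ℕ) (b : ℕ → ℝ), 0 < p ∧ (∀ i < p, 1 < b i) ∧
      (∀ i < p, b i ∈ IntermediateField.adjoin ℚ ({β} : Set ℝ)) ∧ Refines p b q a ∧
      (∀ i < p, FiniteExp p b i 1) ∧ ∀ x ∈ F, FiniteExp p b 0 x := by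
  obtain ⟨p, b, h0, hb, hK, href, hone, hx⟩ :=
    Pool.Agent.P.MP_0dc862_nt.Pf.main hq ha hβ haK hint hP F hF
  exact ⟨p, b, h0, hb, hK, href, hone, fun x hxF t t0 ht =>
    hx x hxF t t0 fun n => by simpa using ht n⟩

end Pool.Agent.Results.MP_0dc862_nt.ParryBase
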