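import Pool.Agent.P.MP_0dc862_nt.Core

namespace Pool.Agent.Results.MP_0dc862_nt.SalemLine

open Filter Topology Pool.Agent.P.MP_0dc862_nt

/-- The greedy expansion of `x` in the alternate base `(b 0, ..., b (p - 1))` is purely periodic. -/
def PurelyPeriodic (p : ℕ) (b : ℕ → ℝ) (x : ℝ) : Prop :=
  ∀ t : ℕ → ℝ, t 0 = x → (∀ n : ℕ, t (n + 1) = Int.fract (b (n % p) * t n)) →
    ∃ k : ℕ, 0 < k ∧ ∀ n : ℕ, ⌊b ((n + k) % p) * t (n + k)⌋ = ⌊b (n % p) * t n⌋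

/-- The point `(β + 1) / (3 (β - 1)) + (u + v (β + 1 / β)) / q` for `m = (u, v)`. -/
noncomputable def pt (β : ℝ) (q : ℕ) (m : ℤ × ℤ) : ℝ :=
  (β + 1) / (3 * (β - 1)) + (m.1 + m.2 * (β + β⁻¹)) / q

/-- The pairs `(u, v)` with `|v| ≤ R` whose point lies in `[0, 1)`. -/
def box (β : ℝ) (q R : ℕ) : Set (ℤ × ℤ) := {m | |m.2| ≤ R ∧ 0 ≤ pt β q m ∧ pt β q m < 1}

theorem box_card (β : ℝ) {q : ℕ} (hq : 0 < q) (R : ℕ) :
    (box β q R).Finite ∧ R + 1 ≤ (box β q R).ncard := by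
  have q1 : (1 : ℝ) ≤ q := by exact_mod_cast hq
  let f : ℤ → ℤ := fun v => ⌈-(q * ((β + 1) / (3 * (β - 1))) + v * (β + β⁻¹))⌉
  have e : ∀ m, pt β q m = (m.1 + (q * ((β + 1) / (3 * (β - 1))) + m.2 * (β + β⁻¹))) / q :=
    fun m => by
      unfold pt
      generalize (β + 1) / (3 * (β - 1)) = x
      field_simp
      ring
  have fin : (box β q R).Finite := by
    refine (((Set.finite_Icc (0 : ℤ) q).prod (Set.finite_Icc (-R : ℤ) R)).image
      fun m => (f m.2 + m.1, m.2)).subset fun m ⟨h1, h2, h3⟩ =>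
        ⟨(m.1 - f m.2, m.2), ⟨⟨?_, ?_⟩, abs_le.1 h1⟩, by simp⟩
    · rw [e, le_div_iff₀ (by linarith)] at h2
      exact sub_nonneg.2 (Int.ceil_le.2 (by linarith))
    · rw [e, div_lt_one (by linarith)] at h3
      have := Int.le_ceil (-(q * ((β + 1) / (3 * (β - 1))) + m.2 * (β + β⁻¹)))
      have : ((m.1 - f m.2 : ℤ) : ℝ) ≤ (q : ℤ) := by
        simp only [f]
        push_cast
        linarith
      exact_mod_cast this
  refine ⟨fin, ?_⟩
  have := Set.ncard_le_ncard_of_injOn (s := ↑(Finset.range (R + 1)))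
    (fun v : ℕ => (f v, (v : ℤ))) (fun v hv => ?_)
    (fun v _ v' _ h => Nat.cast_injective (R := ℤ) (congrArg Prod.snd h)) fin
  · simpa using this
  · have a1 := Int.le_ceil (-(q * ((β + 1) / (3 * (β - 1))) + (v : ℤ) * (β + β⁻¹)))
    have a2 := Int.ceil_lt_add_one (-(q * ((β + 1) / (3 * (β - 1))) + (v : ℤ) * (β + β⁻¹)))
    refine ⟨by simpa [Nat.lt_succ_iff] using hv, ?_, ?_⟩ <;> rw [e]
    · exact div_nonneg (by simp only [f]; linarith) (by linarith)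
    · exact (div_lt_one (by linarith)).2 (by simp only [f]; linarith)

theorem result (j : ℕ) (hj : 1 ≤ j) (h3 : j ≠ 3) (h10 : j ≠ 10) (h33 : j ≠ 33) :
    ∃ (β : ℝ) (p : ℕ) (b : ℕ → ℝ),
      β ^ 4 - (12 + j) * β ^ 3 + (22 - 2 * j) * β ^ 2 - (12 + j) * β + 1 = 0 ∧
      0 < p ∧ (∀ i < p, 1 < b i) ∧ β = ∏ i ∈ Finset.range p, b i ∧
      (IsIntegral ℤ β ∧ (∀ z ∈ (minpoly ℤ β).aroots ℂ, z ≠ (β : ℂ) → ‖z‖ ≤ 1) ∧
        ∃ z ∈ (minpoly ℤ β).aroots ℂ, ‖z‖ = 1) ∧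
      (∀ i < p, b i ∈ IntermediateField.adjoin ℚ ({β} : Set ℝ)) ∧
      ∀ q : ℕ, 0 < q → Tendsto (fun R : ℕ =>
        (({m ∈ box β q R | PurelyPeriodic p b (pt β q m)}.ncard : ℝ) / (box β q R).ncard))
        atTop (𝓝 1) := by
  classical
  have hD := not_sq hj h3 h10 h33
  obtain ⟨γ, γ', h⟩ := exists_roots hj
  obtain ⟨α, α0, hα⟩ : ∃ α : ℝ, 0 ≤ α ∧ α ^ 2 = γ :=
    ⟨√γ, Real.sqrt_nonneg _, Real.sq_sqrt (by linarith [h.lo])⟩
  obtain ⟨z, hz, hc⟩ : ∃ z : ℂ, z ^ 2 = γ' ∧ (starRingEnd ℂ) z = -z :=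
    ⟨√(-γ') * Complex.I, by
      rw [mul_pow, Complex.I_sq, ← Complex.ofReal_pow, Real.sq_sqrt (by linarith [h.neg])]
      simp, by simp⟩
  have G := good hj h hα α0
  obtain ⟨s0, s1⟩ := salem hj hD h hα α0 hz hc
  have gap := fun k hk => (G.gap k hk).1
  have hinv : (Bz j α)⁻¹ = Bz j (-α) := inv_eq_of_mul_eq_one_right G.e9
  have b1 : Bz j α - 1 ≠ 0 := by linarith [G.e1, G.a0, G.b0, G.c0, G.cJ] |> ne_of_gt
  have hal : (Bz j α + 1) / (3 * (Bz j α - 1)) = α / 3 := by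
    field_simp
    linear_combination Bz j α * (G.e5 + 3 / 2 * G.e6) - (1 + α) * G.e9
  refine ⟨Bz j α, 3 * j + 10, bs (fun k => ez j α (wv j k)) (3 * j + 10), s0, by omega,
    fun i hi => bs_gt tab_d.1.2.1.symm gap hi, ((bs_prod tab_d.1.2.1.symm gap).trans G.top).symm,
    s1, fun i _ => ?_, fun q hq => ?_⟩
  · set K := IntermediateField.adjoin ℚ ({Bz j α} : Set ℝ)
    have m0 : Bz j α ∈ K := IntermediateField.mem_adjoin_simple_self ℚ _
    have m1 : α ∈ K := by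
      rw [show α = (Bz j α + 1) / (Bz j α - 1) by field_simp at hal ⊢; linarith]
      exact div_mem (add_mem m0 (one_mem _)) (sub_mem m0 (one_mem _))
    have m2 : ∀ n, ez j α n ∈ K := fun n => by
      unfold ez ev
      exact add_mem (add_mem (add_mem (mul_mem (intCast_mem _ _) (div_mem (mul_mem
        (ofNat_mem _ 2) m1) (ofNat_mem _ 3))) (mul_mem (intCast_mem _ _) (div_mem (mul_mem (mul_mem
        (natCast_mem _ _) (pow_mem m1 2)) (sub_mem m1 (one_mem _))) (ofNat_mem _ 6))))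
        (intCast_mem _ _)) (mul_mem (intCast_mem _ _) (div_mem (pow_mem m1 2) (ofNat_mem _ 3)))
    exact div_mem (m2 _) (m2 _)
  have hpt : ∀ m, pt (Bz j α) q m = α / 3 + (m.1 + m.2 * (10 + j * α ^ 2)) / q := fun m => by
    rw [pt, hal, hinv, show Bz j α + Bz j (-α) = 10 + j * α ^ 2 by unfold Bz; ring]
  refine Metric.tendsto_atTop.2 fun ε hε => ?_
  obtain ⟨R0, hR0⟩ := core hj hD h hα α0 hz hc hq hε
  refine ⟨⌈R0⌉₊, fun R hR => ?_⟩
  obtain ⟨fin, hc⟩ := box_card (Bz j α) hq R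
  set PP := fun m => PurelyPeriodic (3 * j + 10) (bs (fun k => ez j α (wv j k)) (3 * j + 10))
    (pt (Bz j α) q m) with hPP
  have c1 := hR0 R ((Nat.le_ceil R0).trans (Nat.cast_le.2 hR))
    (fin.toFinset.filter fun m => ¬PP m) fun m hm => by
      simp only [Finset.mem_filter, Set.Finite.mem_toFinset, hPP, PurelyPeriodic] at hm
      obtain ⟨⟨h1, h2, h3⟩, hm⟩ := hm
      push Not at hm
      obtain ⟨t, t0, t1, t2⟩ := hm
      refine ⟨by exact_mod_cast h1, t, t0.trans (hpt m), t0 ▸ h2, t0 ▸ h3, t1, fun k hk e => ?_⟩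
      obtain ⟨n, hn⟩ := t2 (k * (3 * j + 10)) (by positivity)
      exact hn (per_of_return t1 e n)
  have c2 := Finset.card_filter_add_card_filter_not (s := fin.toFinset) PP
  have c3 : {m ∈ box (Bz j α) q R | PP m}.ncard = (fin.toFinset.filter PP).card := by
    rw [← Set.ncard_coe_finset]
    congr 1
    ext m
    simp
  rw [← Set.ncard_eq_toFinset_card _ fin, ← c3] at c2
  have c4 : (R + 1 : ℝ) ≤ (box (Bz j α) q R).ncard := by exact_mod_cast hc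
  have c5 : (0 : ℝ) < (box (Bz j α) q R).ncard := lt_of_lt_of_le (by positivity) c4
  have c6 : (({m ∈ box (Bz j α) q R | PP m}.ncard : ℝ)) +
    (fin.toFinset.filter fun m => ¬PP m).card = (box (Bz j α) q R).ncard := by exact_mod_cast c2
  rw [Real.dist_eq, div_sub_one c5.ne', abs_div, abs_of_pos c5, div_lt_iff₀ c5, abs_sub_comm,
    ← c6, add_sub_cancel_left, Nat.abs_cast, c6]
  nlinarith

end Pool.Agent.Results.MP_0dc862_nt.SalemLine
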