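import Pool.Agent.P.MP_0dc862_nt.Pl2

namespace Pool.Agent.Results.MP_0dc862_nt.SalemPlane

open Pool.Agent.P.MP_0dc862_nt Pool.Agent.P.MP_0dc862_nt.Pl

/-- The greedy expansion of `x` in the alternate base `(b 0, ..., b (p - 1))` is ultimately
periodic. -/
def UltPeriodic (p : ℕ) (b : ℕ → ℝ) (x : ℝ) : Prop :=
  ∀ t : ℕ → ℝ, t 0 = x → (∀ n : ℕ, t (n + 1) = Int.fract (b (n % p) * t n)) →
    ∃ N k : ℕ, 0 < k ∧ ∀ n ≥ N, ⌊b ((n + k) % p) * t (n + k)⌋ = ⌊b (n % p) * t n⌋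

/-- The points `(u 0 + u 1 α + u 2 α ^ 2 + u 3 α ^ 3) / (12 q)` of `[0, 1)` with integers
`|u i| ≤ R`, where `α = (β + 1) / (β - 1)`. -/
def box (β : ℝ) (q R : ℕ) : Set ℝ :=
  {x | 0 ≤ x ∧ x < 1 ∧ ∃ u : Fin 4 → ℤ, (∀ i, |u i| ≤ R) ∧
    x = (∑ i, u i * ((β + 1) / (β - 1)) ^ (i : ℕ)) / (12 * q)}

theorem result (j : ℕ) (hj : 1 ≤ j) (h3 : j ≠ 3) (h10 : j ≠ 10) (h33 : j ≠ 33) :
    ∃ (β : ℝ) (p : ℕ) (b : ℕ → ℝ),
      β ^ 4 - (12 + j) * β ^ 3 + (22 - 2 * j) * β ^ 2 - (12 + j) * β + 1 = 0 ∧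
      0 < p ∧ (∀ i < p, 1 < b i) ∧ β = ∏ i ∈ Finset.range p, b i ∧
      (IsIntegral ℤ β ∧ (∀ z ∈ (minpoly ℤ β).aroots ℂ, z ≠ (β : ℂ) → ‖z‖ ≤ 1) ∧
        ∃ z ∈ (minpoly ℤ β).aroots ℂ, ‖z‖ = 1) ∧
      (∀ i < p, b i ∈ IntermediateField.adjoin ℚ ({β} : Set ℝ)) ∧
      ∀ q : ℕ, 0 < q → ∃ c : ℝ, 0 < c ∧ ∀ R0 : ℕ, ∃ R : ℕ, R0 ≤ R ∧
        c * (R : ℝ) ^ (5 / 2 : ℝ) ≤ {x ∈ box β q R | UltPeriodic p b x}.ncard := by
  classical
  have hD := not_sq hj h3 h10 h33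
  obtain ⟨γ, γ', h⟩ := exists_roots hj
  obtain ⟨α, α0, hα⟩ : ∃ α : ℝ, 0 ≤ α ∧ α ^ 2 = γ :=
    ⟨√γ, Real.sqrt_nonneg _, Real.sq_sqrt (by linarith [h.lo])⟩
  obtain ⟨z, hz, hc⟩ : ∃ z : ℂ, z ^ 2 = γ' ∧ (starRingEnd ℂ) z = -z :=
    ⟨√(-γ') * Complex.I, by
      rw [mul_pow, Complex.I_sq, ← Complex.ofReal_pow, Real.sq_sqrt (by linarith [h.neg])]
      simp, by simp⟩
  have G := good hj h hα α0
  obtain ⟨s0, s1⟩ := salem hj hD h hα α0 hz hc
  have gap := fun k hk => (G.gap k hk).1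
  have b0 : 1 < Bz j α := by linarith [G.e1, G.a0, G.b0, G.c0, G.cJ]
  have hal : (Bz j α + 1) / (Bz j α - 1) = α := by
    rw [div_eq_iff (sub_pos.2 b0).ne']
    linear_combination Bz j α * (G.e5 + 3 / 2 * G.e6) - (1 + α) * G.e9
  refine ⟨Bz j α, 3 * j + 10, bs (fun k => ez j α (wv j k)) (3 * j + 10), s0, by omega,
    fun i hi => bs_gt tab_d.1.2.1.symm gap hi, ((bs_prod tab_d.1.2.1.symm gap).trans G.top).symm,
    s1, fun i _ => ?_, fun q hq => ?_⟩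
  · set K := IntermediateField.adjoin ℚ ({Bz j α} : Set ℝ)
    have m0 : Bz j α ∈ K := IntermediateField.mem_adjoin_simple_self ℚ _
    have m1 : α ∈ K := hal ▸ div_mem (add_mem m0 (one_mem _)) (sub_mem m0 (one_mem _))
    have m2 : ∀ n, ez j α n ∈ K := fun n => by
      unfold ez ev
      exact add_mem (add_mem (add_mem (mul_mem (intCast_mem _ _) (div_mem (mul_mem
        (ofNat_mem _ 2) m1) (ofNat_mem _ 3))) (mul_mem (intCast_mem _ _) (div_mem (mul_mem (mul_mem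
        (natCast_mem _ _) (pow_mem m1 2)) (sub_mem m1 (one_mem _))) (ofNat_mem _ 6))))
        (intCast_mem _ _)) (mul_mem (intCast_mem _ _) (div_mem (pow_mem m1 2) (ofNat_mem _ 3)))
    exact div_mem (m2 _) (m2 _)
  have q0 : (0 : ℝ) < q := by exact_mod_cast hq
  have zr : z.re = 0 := by
    have := congrArg Complex.re hc
    simp only [Complex.conj_re, Complex.neg_re] at this
    linarith
  have zi : z.im ≠ 0 := fun e => by
    have := congrArg Complex.re hz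
    simp only [sq, Complex.mul_re, zr, e, Complex.ofReal_re] at this
    linarith [h.neg]
  obtain ⟨C, C0, hC⟩ := Pl.pure hj hD h hα α0 hz hc hq
  obtain ⟨C', C1, hC'⟩ := more hj h hα α0 hz hc hq C0
  obtain ⟨H, H0, hH⟩ := hts (by linarith [G.a0] : 0 < α) (h.neg.trans (by linarith [h.lo] : 0 < γ))
    zr zi
  obtain ⟨D, hD1⟩ := exists_nat_ge (H * (12 * q * (C' + 1)) + 1)
  have H1 : 0 < H * (12 * q * (C' + 1)) := mul_pos H0 (mul_pos (by positivity) (by linarith))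
  have D1 : (1 : ℝ) ≤ D := by linarith
  have D2 : 1 ≤ D := by exact_mod_cast D1
  refine ⟨1 / (2 * Bz j α * D ^ 5), by positivity, fun R0 => ?_⟩
  obtain ⟨N, hN, P, hP1, hP⟩ := hC (R0 + 1)
  obtain ⟨E, hE1, hE⟩ := hC' N (by omega) P hP
  have N1 : (1 : ℝ) ≤ N ^ 2 := one_le_pow₀ (by exact_mod_cast (by omega : 1 ≤ N))
  refine ⟨(D * N) ^ 2, by nlinarith [Nat.mul_le_mul_right N D2], ?_⟩
  have fin : (box (Bz j α) q ((D * N) ^ 2)).Finite :=
    ((Set.Finite.pi' fun _ : Fin 4 => Set.finite_Icc (-((D * N) ^ 2 : ℕ) : ℤ)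
      ((D * N) ^ 2 : ℕ)).image _).subset fun x ⟨_, _, u, h1, h2⟩ =>
        ⟨u, fun i => abs_le.1 (h1 i), h2.symm⟩
  have c1 := Set.ncard_le_ncard_of_injOn (s := ↑E) (co j q α) (fun n hn => ?_) (fun n _ n' _ e =>
    sub_eq_zero.1 (ez_zero hj hD h hα hz hc (.inl (by
      rw [ez_sub, sub_eq_zero]
      exact (div_left_inj' (by positivity)).1 e)))) (fin.sep (UltPeriodic (3 * j + 10)
        (bs (fun k => ez j α (wv j k)) (3 * j + 10))))
  · rw [Set.ncard_coe_finset] at c1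
    refine le_trans ?_ (hE1.trans (Nat.cast_le.2 c1))
    rw [Nat.cast_pow, ← Real.rpow_natCast _ 2, ← Real.rpow_mul (by positivity),
      show ((2 : ℕ) : ℝ) * (5 / 2) = (5 : ℕ) by norm_num, Real.rpow_natCast]
    refine le_trans (le_of_eq ?_) (mul_le_mul_of_nonneg_left hP1 (by positivity))
    push_cast
    field_simp
  obtain ⟨⟨a1, a2⟩, a3, a4, K, k, hk, a5⟩ := hE n hn
  refine ⟨⟨a1, a2, ![6 * n.2.2.1, 4 * n.1, 2 * n.2.2.2 - j * n.2.1, j * n.2.1], ?_, ?_⟩,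
    fun t t0 ht => ⟨K * (3 * j + 10), k * (3 * j + 10), by positivity,
      per hj h hα α0 hq ⟨a1, a2⟩ a5 t t0 ht⟩⟩
  · have e1 := co_u (j := j) α hq n
    have e2 := co_u (j := j) (-α) hq n
    have e3 := co_u (j := j) z hq n
    rw [neg_sq, neg_mul, ← sub_eq_add_neg] at e2
    rw [hα] at e1 e2
    rw [hz] at e3
    have l : ∀ y : ℝ, y ≤ (C' + 1) * N ^ 2 → 12 * q * y ≤ 12 * q * (C' + 1) * N ^ 2 :=
      fun y hy => by rw [mul_assoc (12 * q : ℝ)]; gcongr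
    obtain ⟨b0, b1, b2, b3⟩ := hH (6 * n.2.2.1) (4 * n.1) (2 * n.2.2.2 - j * n.2.1) (j * n.2.1)
      (12 * q * (C' + 1) * N ^ 2) (by
        rw [← e1, abs_of_nonneg (by positivity)]
        exact l _ (by nlinarith)) (by
        rw [← e2, abs_mul, abs_of_pos (by positivity)]
        exact l _ (by linarith)) (by
        push_cast
        rw [← e3, norm_mul, norm_mul, Complex.norm_ofNat, Complex.norm_natCast]
        exact l _ (by linarith))
    have l2 : H * (12 * q * (C' + 1) * N ^ 2) ≤ ((D * N) ^ 2 : ℕ) := by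
      push_cast
      rw [← mul_assoc, mul_pow]
      gcongr
      nlinarith
    intro i
    fin_cases i
    · exact_mod_cast b0.trans l2
    · exact_mod_cast b1.trans l2
    · exact_mod_cast b2.trans l2
    · exact_mod_cast b3.trans l2
  · rw [hal, eq_div_iff (by positivity), mul_comm, co_u α hq, Fin.sum_univ_four]
    simp only [Matrix.cons_val, Fin.val_zero, Fin.val_one, Fin.val_two,
      show ((3 : Fin 4) : ℕ) = 3 from rfl]
    push_cast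
    ring

end Pool.Agent.Results.MP_0dc862_nt.SalemPlane
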